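import Pool.Agent.J4H21.EE.Stm

/-!
# Project EE, JOB FIN: the bounds for the one-step ratio from TWO and CL
-/

set_option autoImplicit false

namespace Pool.Agent.J4H87.EE

open Finset Filter Topology KN Pool.Agent.J4H21.EE
open scoped Classical

theorem t_FIN : S_TWO → S_CL → S_FIN := by
  intro hTWO hCL μ hB ε hε
  have hμ : (77 : ℝ) / 20 ≤ μ := hB.ge
  have hμ0 : 0 < μ := by linarith
  have hμ5 : μ ≤ 5 := hB.le
  have hc0 : ∀ n : ℕ, 0 < ((S n).card : ℝ) := fun n => lt_of_lt_of_le (pow_pos hμ0 n) (hB.low n)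
  set c : ℕ → ℝ := fun n => ((S n).card : ℝ) with hc
  set p : ℕ → ℝ := fun n => ((P n).card : ℝ) with hp
  have hcp : ∀ n, 0 < c n := hc0
  have hpp : ∀ n, 0 ≤ p n := fun n => Nat.cast_nonneg _
  -- TWO over the reals
  have h2 : ∀ n : ℕ, 1 ≤ n → 10 * c (n + 1) ≤ c (n + 2) + p (n + 2) + 25 * c n := by
    intro n hn
    have := hTWO n hn
    have h' : ((10 * (S (n + 1)).card : ℕ) : ℝ) ≤ (((S (n + 2)).card + (P (n + 2)).card + 25 * (S n).card : ℕ) : ℝ) := by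
      exact_mod_cast this
    push_cast at h'
    exact h'
  have hcl : Tendsto (fun n : ℕ => p (n + 1) / c n) atTop (𝓝 0) := hCL μ hB
  have hr : Tendsto (fun n : ℕ => c (n + 2) / c n) atTop (𝓝 (μ ^ 2)) := hB.ratio
  -- the ratios
  set r : ℕ → ℝ := fun n => c (n + 1) / c n with hrd
  have hrpos : ∀ n, 0 < r n := fun n => div_pos (hcp _) (hcp _)
  -- (10 - p(n+2)/c(n+1)) r n ≤ c (n+2) / c n + 25
  have key : ∀ n : ℕ, 1 ≤ n → (10 - p (n + 2) / c (n + 1)) * r n ≤ c (n + 2) / c n + 25 := by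
    intro n hn
    have e1 : (10 - p (n + 2) / c (n + 1)) * r n = (10 * c (n + 1) - p (n + 2)) / c n := by
      have h1 := (hcp n).ne'
      have h3 := (hcp (n + 1)).ne'
      simp only [hrd]
      field_simp
    have e2 : c (n + 2) / c n + 25 = (c (n + 2) + 25 * c n) / c n := by
      have h1 := (hcp n).ne'
      field_simp
    rw [e1, e2]
    exact div_le_div_of_nonneg_right (by linarith [h2 n hn]) (hcp n).le
  have hcl1 : Tendsto (fun n : ℕ => p (n + 2) / c (n + 1)) atTop (𝓝 0) :=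
    (tendsto_add_atTop_iff_nat (f := fun n : ℕ => p (n + 1) / c n) 1).2 hcl
  -- upper bound: r n ≤ (c(n+2)/c n + 25) / (10 - p/c) → (μ² + 25)/10
  have hup : Tendsto (fun n : ℕ => (c (n + 2) / c n + 25) / (10 - p (n + 2) / c (n + 1))) atTop
      (𝓝 ((μ ^ 2 + 25) / (10 - 0))) :=
    (hr.add_const 25).div (tendsto_const_nhds.sub hcl1) (by norm_num)
  have hlim0 : (μ ^ 2 + 25) / (10 - 0) = (25 + μ ^ 2) / 10 := by rw [sub_zero, add_comm]
  rw [hlim0] at hup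
  have hsmall : ∀ᶠ n : ℕ in atTop, p (n + 2) / c (n + 1) < 5 :=
    hcl1.eventually_lt_const (by norm_num)
  have hupper : ∀ δ : ℝ, 0 < δ → ∀ᶠ n : ℕ in atTop, r n ≤ (25 + μ ^ 2) / 10 + δ := by
    intro δ hδ
    filter_upwards [hsmall, hup.eventually_lt_const (show (25 + μ ^ 2) / 10 < (25 + μ ^ 2) / 10 + δ by linarith),
      eventually_ge_atTop 1] with n h1 h3 hn
    have h4 : 0 < 10 - p (n + 2) / c (n + 1) := by linarith
    have h5 : r n ≤ (c (n + 2) / c n + 25) / (10 - p (n + 2) / c (n + 1)) := by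
      rw [le_div_iff₀ h4, mul_comm]
      exact key n hn
    linarith
  -- lower bound: r (n+1) = (c (n+2) / c n) / r n
  have hprod : ∀ n, r (n + 1) = (c (n + 2) / c n) / r n := by
    intro n
    have h1 := (hcp n).ne'
    have h3 := (hcp (n + 1)).ne'
    simp only [hrd]
    field_simp
  have hM0 : 0 < (25 + μ ^ 2) / 10 := by positivity
  -- choose δ with μ²/(M + δ) - δ' ≥ 10 μ²/(25+μ²) - ε
  have hcont : Tendsto (fun δ : ℝ => (μ ^ 2 - δ) / ((25 + μ ^ 2) / 10 + δ)) (𝓝[>] 0)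
      (𝓝 ((μ ^ 2 - 0) / ((25 + μ ^ 2) / 10 + 0))) := by
    apply tendsto_nhdsWithin_of_tendsto_nhds
    apply Tendsto.div
    · exact tendsto_const_nhds.sub tendsto_id
    · exact tendsto_const_nhds.add tendsto_id
    · linarith
  have hval : (μ ^ 2 - 0) / ((25 + μ ^ 2) / 10 + 0) = 10 * μ ^ 2 / (25 + μ ^ 2) := by
    have : (25 + μ ^ 2) ≠ 0 := by positivity
    field_simp
    ring
  rw [hval] at hcont
  have hex : ∃ δ : ℝ, 0 < δ ∧ δ < μ ^ 2 ∧ 10 * μ ^ 2 / (25 + μ ^ 2) - ε < (μ ^ 2 - δ) / ((25 + μ ^ 2) / 10 + δ) := by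
    have h1 := hcont.eventually_const_lt (show 10 * μ ^ 2 / (25 + μ ^ 2) - ε < 10 * μ ^ 2 / (25 + μ ^ 2) by linarith)
    have h3 : ∀ᶠ δ : ℝ in 𝓝[>] 0, δ < μ ^ 2 :=
      tendsto_nhdsWithin_of_tendsto_nhds (tendsto_id (α := ℝ)) |>.eventually_lt_const (by positivity)
    have h4 : ∀ᶠ δ : ℝ in 𝓝[>] 0, 0 < δ := eventually_mem_nhdsWithin
    obtain ⟨δ, h5, h6, h7⟩ := (h1.and (h3.and h4)).exists
    exact ⟨δ, h7, h6, h5⟩
  obtain ⟨δ, hδ0, hδμ, hδ⟩ := hex
  have hlow : ∀ᶠ n : ℕ in atTop, 10 * μ ^ 2 / (25 + μ ^ 2) - ε ≤ r (n + 1) := by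
    filter_upwards [hupper δ hδ0, hr.eventually_const_lt (show μ ^ 2 - δ < μ ^ 2 by linarith)] with n h1 h3
    rw [hprod n]
    have h5 : (μ ^ 2 - δ) / ((25 + μ ^ 2) / 10 + δ) ≤ (c (n + 2) / c n) / r n := by
      apply div_le_div₀
      · exact (div_pos (hcp _) (hcp _)).le
      · exact h3.le
      · exact hrpos n
      · exact h1
    linarith
  have hlow' : ∀ᶠ n : ℕ in atTop, 10 * μ ^ 2 / (25 + μ ^ 2) - ε ≤ r n := by
    obtain ⟨N, hN⟩ := eventually_atTop.1 hlow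
    refine eventually_atTop.2 ⟨N + 1, fun n hn => ?_⟩
    obtain ⟨m, rfl⟩ := Nat.exists_eq_add_of_le' (show 1 ≤ n by omega)
    exact hN m (by omega)
  filter_upwards [hlow', hupper ε hε] with n h1 h3
  exact ⟨h1, h3⟩

end Pool.Agent.J4H87.EE
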