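import Pool.Agent.J4H21.EE.Stm
import Pool.Agent.H246KN.SUM
import Pool.Agent.H246KN.INS
import Pool.Agent.H246KN.REM
import Pool.Agent.H246KN.CHG

/-!
# Project EE, JOB TR: transport of mass
-/

set_option autoImplicit false

namespace Pool.Agent.J4H87.EE

open Finset Filter Topology KN Pool.Agent.J4H21.EE
open scoped Classical

theorem mem_P {n : ℕ} {w : List Dir} : w ∈ P n ↔ w.length = n ∧ SAP w := by
  unfold P
  rw [mem_filter, mem_W]

theorem K_true (n : ℕ) : K (fun _ => True) n = P n := by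
  ext w
  rw [mem_K, mem_P]
  tauto

theorem inv_true : Inv (fun _ => True) := fun _ _ _ _ _ => Iff.rfl

theorem fr_le (w : List Dir) : fr w ≤ 6 * w.length := by
  unfold fr sites
  refine (Finset.card_filter_le _ _).trans ?_
  rw [Finset.card_product, Finset.card_range]
  have : (univ : Finset Dir).card = 6 := rfl
  rw [this, mul_comm]

theorem sum_A (n k : ℕ) (𝒜 : Finset (List Dir)) (h : ∀ u ∈ 𝒜, u.length = k) :
    (∑ u ∈ 𝒜, (A n u : ℝ)) = (((P n).filter (fun v => v.take k ∈ 𝒜)).card : ℝ) := by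
  have h1 : ((P n).filter (fun v => v.take k ∈ 𝒜)).card =
      ∑ u ∈ 𝒜, (((P n).filter (fun v => v.take k ∈ 𝒜)).filter (fun v => v.take k = u)).card := by
    apply Finset.card_eq_sum_card_fiberwise
    intro v hv
    exact (Finset.mem_filter.1 (Finset.mem_coe.1 hv)).2
  rw [h1]
  push_cast
  apply Finset.sum_congr rfl
  intro u hu
  unfold A
  congr 2
  ext v
  simp only [Finset.mem_filter]
  rw [List.prefix_iff_eq_take, h u hu]
  constructor
  · rintro ⟨a, b⟩
    exact ⟨⟨a, by rw [← b]; exact hu⟩, b.symm⟩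
  · rintro ⟨⟨a, -⟩, b⟩
    exact ⟨a, b.symm⟩

theorem take_rem (w : List Dir) (j k : ℕ) (hb : bump w j) (hk : k ≤ j) :
    (rem w j).take k = w.take k := by
  have hj : j + 2 < w.length := hb.1
  unfold rem
  rw [List.append_assoc, List.take_append_of_le_length, List.take_take]
  · congr 1
    omega
  · rw [List.length_take]
    omega

/-- the transport inequality at one length -/
theorem main (n k : ℕ) (hn : 4 ≤ n) (𝒜 : Finset (List Dir)) (μ M T : ℝ) (hM : 0 < M) (hT : 0 ≤ T) :
    (1 - k / M) * (((P (n + 2)).filter (fun w => w.take k ∈ 𝒜 ∧ M ≤ (bu w : ℝ))).card : ℝ) ≤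
      (μ ^ 2 * (1 + 3 / M) + T / M) * (((P n).filter (fun w => w.take k ∈ 𝒜)).card : ℝ) +
        (6 * n / M) * (((P n).filter (fun w => μ ^ 2 * (bu w : ℝ) + T ≤ (fr w : ℝ))).card : ℝ) := by
  set F : List Dir → List Dir → ℝ := fun w w' =>
    if w.take k ∈ 𝒜 ∧ M ≤ (bu w' : ℝ) then 1 / (bu w' : ℝ) else 0 with hF
  have hF0 : ∀ w w', 0 ≤ F w w' := by
    intro w w'
    simp only [hF]
    split
    · positivity
    · exact le_refl 0
  have hsum := S_sum_proof S_ins_proof S_rem_proof (fun _ => True) inv_true n hn F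
  rw [K_true, K_true] at hsum
  -- right side
  have hR : ∀ w ∈ P (n + 2), (if w.take k ∈ 𝒜 ∧ M ≤ (bu w : ℝ) then (1 - k / M) else 0) ≤
      ∑ j ∈ bumps w, F (rem w j) w := by
    intro w hw
    split
    · rename_i hc
      have hb0 : 0 < (bu w : ℝ) := lt_of_lt_of_le hM hc.2
      have h1 : ∑ j ∈ (bumps w).filter (fun j => k ≤ j), F (rem w j) w ≤ ∑ j ∈ bumps w, F (rem w j) w :=
        Finset.sum_le_sum_of_subset_of_nonneg (Finset.filter_subset _ _) (fun j _ _ => hF0 _ _)
      have h2 : ∑ j ∈ (bumps w).filter (fun j => k ≤ j), F (rem w j) w =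
          ∑ j ∈ (bumps w).filter (fun j => k ≤ j), 1 / (bu w : ℝ) := by
        apply Finset.sum_congr rfl
        intro j hj
        rw [Finset.mem_filter, mem_bumps] at hj
        simp only [hF]
        rw [take_rem w j k hj.1 hj.2, if_pos hc]
      rw [Finset.sum_const, nsmul_eq_mul] at h2
      have h3 : (bumps w).card ≤ ((bumps w).filter (fun j => k ≤ j)).card + k := by
        have h4 := Finset.card_filter_add_card_filter_not (s := bumps w) (fun j => k ≤ j)
        have h5 : ((bumps w).filter (fun j => ¬ k ≤ j)).card ≤ k := by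
          calc ((bumps w).filter (fun j => ¬ k ≤ j)).card ≤ (range k).card := by
                apply Finset.card_le_card
                intro j hj
                rw [Finset.mem_filter] at hj
                rw [Finset.mem_range]
                omega
            _ = k := Finset.card_range k
        omega
      have h3' : (bu w : ℝ) - k ≤ (((bumps w).filter (fun j => k ≤ j)).card : ℝ) := by
        have : ((bumps w).card : ℝ) ≤ (((bumps w).filter (fun j => k ≤ j)).card : ℝ) + k := by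
          exact_mod_cast h3
        have e : (bu w : ℝ) = ((bumps w).card : ℝ) := rfl
        linarith
      have h6 : (1 - k / M : ℝ) ≤ (((bumps w).filter (fun j => k ≤ j)).card : ℝ) * (1 / (bu w : ℝ)) := by
        have h7 : (k : ℝ) / (bu w : ℝ) ≤ k / M := div_le_div_of_nonneg_left (Nat.cast_nonneg k) hM hc.2
        have h8 : ((bu w : ℝ) - k) * (1 / (bu w : ℝ)) = 1 - k / (bu w : ℝ) := by
          field_simp
        have h9 : ((bu w : ℝ) - k) * (1 / (bu w : ℝ)) ≤
            (((bumps w).filter (fun j => k ≤ j)).card : ℝ) * (1 / (bu w : ℝ)) :=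
          mul_le_mul_of_nonneg_right h3' (by positivity)
        linarith
      linarith
    · exact Finset.sum_nonneg (fun j _ => hF0 _ _)
  have hR' := Finset.sum_le_sum hR
  rw [← Finset.sum_filter, Finset.sum_const, nsmul_eq_mul, ← hsum] at hR'
  -- left side
  have hL : ∀ w ∈ P n, ∑ q ∈ sites w, F w (ins w q.1 q.2) ≤
      (if w.take k ∈ 𝒜 then (μ ^ 2 * (1 + 3 / M) + T / M) else 0) +
        (if μ ^ 2 * (bu w : ℝ) + T ≤ (fr w : ℝ) then 6 * n / M else 0) := by
    intro w hw
    have hw' := mem_P.1 hw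
    have hfirst0 : 0 ≤ μ ^ 2 * (1 + 3 / M) + T / M := by positivity
    have hsecond0 : (0 : ℝ) ≤ 6 * n / M := by positivity
    by_cases hA : w.take k ∈ 𝒜
    · rw [if_pos hA]
      set m : ℝ := max M ((bu w : ℝ) - 3) with hm
      have hmM : M ≤ m := le_max_left _ _
      have hm0 : 0 < m := lt_of_lt_of_le hM hmM
      have hterm : ∀ q ∈ sites w, F w (ins w q.1 q.2) ≤ 1 / m := by
        rintro ⟨i, d⟩ hq
        rw [mem_sites] at hq
        obtain ⟨-, -, -, hbu⟩ := S_change_proof w i d hw'.2 hq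
        have hbu' : (bu w : ℝ) ≤ (bu (ins w i d) : ℝ) + 3 := by exact_mod_cast hbu
        simp only [hF]
        split
        · rename_i hc
          apply div_le_div_of_nonneg_left (by norm_num) hm0
          exact max_le hc.2 (by linarith)
        · positivity
      have h1 : ∑ q ∈ sites w, F w (ins w q.1 q.2) ≤ (fr w : ℝ) / m := by
        calc ∑ q ∈ sites w, F w (ins w q.1 q.2) ≤ ∑ q ∈ sites w, 1 / m := Finset.sum_le_sum hterm
          _ = (fr w : ℝ) / m := by
            rw [Finset.sum_const, nsmul_eq_mul]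
            unfold fr
            ring
      by_cases hbad : μ ^ 2 * (bu w : ℝ) + T ≤ (fr w : ℝ)
      · rw [if_pos hbad]
        have h2 : (fr w : ℝ) ≤ 6 * n := by
          have := fr_le w
          rw [hw'.1] at this
          exact_mod_cast this
        have h3 : (fr w : ℝ) / m ≤ 6 * n / M := by
          apply div_le_div₀ (by positivity) h2 hM hmM
        linarith
      · rw [if_neg hbad, add_zero]
        push Not at hbad
        have h2 : (fr w : ℝ) / m ≤ (μ ^ 2 * (m + 3) + T) / m := by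
          apply div_le_div_of_nonneg_right _ hm0.le
          have h3 : (bu w : ℝ) ≤ m + 3 := by
            have := le_max_right M ((bu w : ℝ) - 3)
            linarith
          have h4 : μ ^ 2 * (bu w : ℝ) ≤ μ ^ 2 * (m + 3) := mul_le_mul_of_nonneg_left h3 (by positivity)
          linarith
        have h5 : (μ ^ 2 * (m + 3) + T) / m = μ ^ 2 * (1 + 3 / m) + T / m := by
          field_simp
        have h6 : 3 / m ≤ 3 / M := div_le_div_of_nonneg_left (by norm_num) hM hmM
        have h7 : T / m ≤ T / M := div_le_div_of_nonneg_left hT hM hmM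
        have h8 : μ ^ 2 * (1 + 3 / m) ≤ μ ^ 2 * (1 + 3 / M) :=
          mul_le_mul_of_nonneg_left (by linarith) (by positivity)
        linarith
    · have hz : ∑ q ∈ sites w, F w (ins w q.1 q.2) = 0 := by
        apply Finset.sum_eq_zero
        intro q _
        simp only [hF]
        rw [if_neg]
        exact fun h => hA h.1
      rw [hz, if_neg hA, zero_add]
      split
      · exact hsecond0
      · exact le_refl 0
  have hL' := Finset.sum_le_sum hL
  rw [Finset.sum_add_distrib, ← Finset.sum_filter, ← Finset.sum_filter, Finset.sum_const, Finset.sum_const,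
    nsmul_eq_mul, nsmul_eq_mul] at hL'
  have hfin := hR'.trans hL'
  linarith

theorem t_TR : S_BAL → S_DEN → S_TR := by
  intro hBAL hDEN μ hB k τ hτ
  have hμ0 : 0 < μ := by have := hB.ge; linarith
  obtain ⟨κ, hκ, hden⟩ := hDEN μ hB
  have hbal := hBAL μ hB (κ * τ / 4) (κ * τ / 24) (by positivity) (by positivity)
  have hden' := (tendsto_add_atTop_nat 2).eventually (hden (τ / (2 * μ ^ 2)) (by positivity))
  -- largeness of n
  have hlarge : ∀ D : ℝ, ∀ᶠ n : ℕ in atTop, D ≤ (n : ℝ) := fun D =>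
    (tendsto_natCast_atTop_atTop (R := ℝ)).eventually_ge_atTop D
  filter_upwards [hbal, hden', hlarge (12 * μ ^ 2 / (κ * τ)), hlarge (4 * k * (μ ^ 2 + τ) / (κ * τ)),
    hlarge (2 * k / κ), eventually_ge_atTop 4] with n hbal hden' hn1 hn2 hn3 hn4 𝒜 h𝒜
  rw [sum_A (n + 2) k 𝒜 h𝒜, sum_A n k 𝒜 h𝒜]
  have hn0 : (0 : ℝ) < n := by
    have : (4 : ℝ) ≤ n := by exact_mod_cast hn4
    linarith
  have hM : 0 < κ * n := by positivity
  have hmain := main n k hn4 𝒜 μ (κ * n) (κ * τ / 4 * n) hM (by positivity)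
  set X : ℝ := (((P n).filter (fun w => w.take k ∈ 𝒜)).card : ℝ) with hX
  set Y : ℝ := (((P (n + 2)).filter (fun w => w.take k ∈ 𝒜 ∧ κ * n ≤ (bu w : ℝ))).card : ℝ) with hY
  set Z : ℝ := (((P (n + 2)).filter (fun w => w.take k ∈ 𝒜)).card : ℝ) with hZ
  set Bd : ℝ := (((P n).filter (fun w => μ ^ 2 * (bu w : ℝ) + κ * τ / 4 * n ≤ (fr w : ℝ))).card : ℝ) with hBd
  set Dn : ℝ := (((P (n + 2)).filter (fun v => (bu v : ℝ) ≤ κ * ((n + 2 : ℕ) : ℝ))).card : ℝ) with hDn
  have hX0 : 0 ≤ X := Nat.cast_nonneg _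
  have hY0 : 0 ≤ Y := Nat.cast_nonneg _
  have hZY : Z ≤ Y + Dn := by
    have : ((P (n + 2)).filter (fun w => w.take k ∈ 𝒜)).card ≤
        ((P (n + 2)).filter (fun w => w.take k ∈ 𝒜 ∧ κ * n ≤ (bu w : ℝ))).card +
          ((P (n + 2)).filter (fun v => (bu v : ℝ) ≤ κ * ((n + 2 : ℕ) : ℝ))).card := by
      refine le_trans (Finset.card_le_card ?_) (Finset.card_union_le _ _)
      intro w hw
      rw [Finset.mem_filter] at hw
      rw [Finset.mem_union, Finset.mem_filter, Finset.mem_filter]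
      by_cases hc : κ * n ≤ (bu w : ℝ)
      · exact Or.inl ⟨hw.1, hw.2, hc⟩
      · right
        refine ⟨hw.1, ?_⟩
        push Not at hc
        push_cast
        nlinarith
    exact (Nat.cast_le.2 this).trans (Nat.cast_add _ _).le
  have hDn' : Dn ≤ τ / 2 * μ ^ n := by
    have e : τ / (2 * μ ^ 2) * μ ^ (n + 2) = τ / 2 * μ ^ n := by
      rw [pow_add]
      field_simp
    rw [← e]
    exact hden'
  -- the coefficients
  have hT : κ * τ / 4 * n / (κ * n) = τ / 4 := by
    field_simp
  have h6 : 6 * n / (κ * n) = 6 / κ := by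
    field_simp
  rw [hT, h6] at hmain
  have hc1 : μ ^ 2 * (3 / (κ * n)) ≤ τ / 4 := by
    have : 12 * μ ^ 2 ≤ n * (κ * τ) := by
      rwa [div_le_iff₀ (by positivity)] at hn1
    rw [← mul_div_assoc, div_le_iff₀ hM]
    nlinarith
  have hc2 : (k / (κ * n)) * (μ ^ 2 + τ) ≤ τ / 4 := by
    have : 4 * k * (μ ^ 2 + τ) ≤ n * (κ * τ) := by
      rwa [div_le_iff₀ (by positivity)] at hn2
    rw [div_mul_eq_mul_div, div_le_iff₀ hM]
    nlinarith
  have hc3 : k / (κ * n) ≤ 1 / 2 := by
    have : 2 * k ≤ n * κ := by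
      rwa [div_le_iff₀ (by positivity)] at hn3
    rw [div_le_iff₀ hM]
    nlinarith
  set c : ℝ := k / (κ * n) with hcdef
  have hc0 : 0 ≤ c := by positivity
  have hBd' : 6 / κ * Bd ≤ τ / 4 * μ ^ n := by
    have h1 : 6 / κ * Bd ≤ 6 / κ * (κ * τ / 24 * μ ^ n) := mul_le_mul_of_nonneg_left hbal (by positivity)
    have h2 : 6 / κ * (κ * τ / 24 * μ ^ n) = τ / 4 * μ ^ n := by
      field_simp
      norm_num
    linarith
  have hpn : 0 < μ ^ n := pow_pos hμ0 n
  have hcoef : μ ^ 2 * (1 + 3 / (κ * n)) + τ / 4 ≤ (1 - c) * (μ ^ 2 + τ) := by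
    nlinarith
  have h7 : (1 - c) * Y ≤ (1 - c) * ((μ ^ 2 + τ) * X) + (1 - c) * (τ / 2 * μ ^ n) := by
    have h8 : (μ ^ 2 * (1 + 3 / (κ * n)) + τ / 4) * X ≤ (1 - c) * (μ ^ 2 + τ) * X :=
      mul_le_mul_of_nonneg_right hcoef hX0
    have h9 : τ / 4 * μ ^ n ≤ (1 - c) * (τ / 2 * μ ^ n) := by
      have : 0 < τ * μ ^ n := by positivity
      nlinarith
    nlinarith
  have h10 : Y ≤ (μ ^ 2 + τ) * X + τ / 2 * μ ^ n := by
    have h11 : 0 < 1 - c := by linarith
    have h12 : (1 - c) * Y ≤ (1 - c) * ((μ ^ 2 + τ) * X + τ / 2 * μ ^ n) := by linarith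
    exact le_of_mul_le_mul_left h12 h11
  linarith

end Pool.Agent.J4H87.EE
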